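import Pool.Agent.helper36.PT.Spec

set_option autoImplicit false

/-! Project PT (MP_ad8ced_nt), row LRG (helper9): the large primes. -/

namespace Pool.Agent.PT

open Finset Pool.Agent.helper71.AA

lemma LRG_g (K : Finset ℕ) : 1 / pr K = ∏ l ∈ K, 1 / (l : ℝ) := by
  unfold pr
  rw [prod_div_distrib, prod_const_one]

lemma LRG_one (Q : Finset ℕ) (f : ℕ → ℝ) :
    ∑ K ∈ Q.powerset, ∏ l ∈ K, f l = ∏ l ∈ Q, (1 + f l) := (prod_one_add Q).symm

lemma LRG_prod_one_le (Q : Finset ℕ) (f : ℕ → ℝ) (hf : ∀ l ∈ Q, 0 ≤ f l) :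
    1 ≤ ∏ l ∈ Q, (1 + f l) := by
  calc (1 : ℝ) = ∏ l ∈ Q, (1 : ℝ) := by simp
    _ ≤ _ := prod_le_prod (fun _ _ => zero_le_one) (fun l hl => by have := hf l hl; linarith)

lemma LRG_erase_le (Q : Finset ℕ) (f : ℕ → ℝ) (hf : ∀ l ∈ Q, 0 ≤ f l) (a : ℕ) :
    ∏ l ∈ Q.erase a, (1 + f l) ≤ ∏ l ∈ Q, (1 + f l) := by
  by_cases ha : a ∈ Q
  · rw [← mul_prod_erase Q _ ha]
    have h1 := LRG_prod_one_le (Q.erase a) f (fun l hl => hf l (mem_of_mem_erase hl))
    have h2 := hf a ha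
    nlinarith
  · rw [erase_eq_of_notMem ha]

/-- the sets containing `a` -/
lemma LRG_mem (Q : Finset ℕ) (f : ℕ → ℝ) (hf : ∀ l ∈ Q, 0 ≤ f l) (a : ℕ) (ha : a ∈ Q) :
    ∑ K ∈ Q.powerset, (if a ∈ K then ∏ l ∈ K, f l else 0) ≤ f a * ∏ l ∈ Q, (1 + f l) := by
  have hQ : Q = insert a (Q.erase a) := (insert_erase ha).symm
  have hna : a ∉ Q.erase a := notMem_erase a Q
  have e1 : ∑ K ∈ Q.powerset, (if a ∈ K then ∏ l ∈ K, f l else 0) =
      f a * ∏ l ∈ Q.erase a, (1 + f l) := by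
    conv_lhs => rw [hQ]
    rw [sum_powerset_insert hna]
    have h1 : ∑ K ∈ (Q.erase a).powerset, (if a ∈ K then ∏ l ∈ K, f l else 0) = 0 := by
      refine sum_eq_zero fun K hK => ?_
      rw [if_neg (fun h => hna (mem_powerset.1 hK h))]
    rw [h1, zero_add, ← LRG_one, mul_sum]
    refine sum_congr rfl fun K hK => ?_
    rw [if_pos (mem_insert_self a K), prod_insert (fun h => hna (mem_powerset.1 hK h))]
  rw [e1]
  exact mul_le_mul_of_nonneg_left (LRG_erase_le Q f hf a) (hf a ha)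

/-- pairs of sets -/
lemma LRG_pair (Q : Finset ℕ) (f : ℕ → ℝ) :
    ∑ D ∈ Q.powerset, ∑ E ∈ Q.powerset, ∏ l ∈ D ∪ E, f l = ∏ l ∈ Q, (1 + 3 * f l) := by
  induction Q using Finset.induction_on with
  | empty => simp
  | insert a Q ha ih =>
    rw [prod_insert ha, ← ih, sum_powerset_insert ha]
    have h1 : ∀ D ∈ Q.powerset, ∑ E ∈ (insert a Q).powerset, ∏ l ∈ D ∪ E, f l =
        (1 + f a) * ∑ E ∈ Q.powerset, ∏ l ∈ D ∪ E, f l := by
      intro D hD
      rw [sum_powerset_insert ha, add_mul, one_mul, mul_sum]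
      congr 1
      refine sum_congr rfl fun E hE => ?_
      have hn : a ∉ D ∪ E := by
        rw [mem_union]
        rintro (h | h)
        · exact ha (mem_powerset.1 hD h)
        · exact ha (mem_powerset.1 hE h)
      rw [union_insert, prod_insert hn]
    have h2 : ∀ D ∈ Q.powerset, ∑ E ∈ (insert a Q).powerset, ∏ l ∈ insert a D ∪ E, f l =
        (2 * f a) * ∑ E ∈ Q.powerset, ∏ l ∈ D ∪ E, f l := by
      intro D hD
      rw [sum_powerset_insert ha, two_mul, add_mul, mul_sum]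
      have hn : ∀ E ∈ Q.powerset, a ∉ D ∪ E := by
        intro E hE
        rw [mem_union]
        rintro (h | h)
        · exact ha (mem_powerset.1 hD h)
        · exact ha (mem_powerset.1 hE h)
      congr 1
      · refine sum_congr rfl fun E hE => ?_
        rw [insert_union, prod_insert (hn E hE)]
      · refine sum_congr rfl fun E hE => ?_
        rw [insert_union, union_insert, insert_idem, prod_insert (hn E hE)]
    rw [sum_congr rfl h1, sum_congr rfl h2, ← mul_sum, ← mul_sum]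
    ring

lemma LRG_pair_mem (Q : Finset ℕ) (f : ℕ → ℝ) (hf : ∀ l ∈ Q, 0 ≤ f l) (a : ℕ) (ha : a ∈ Q) :
    ∑ D ∈ Q.powerset, ∑ E ∈ Q.powerset, (if a ∈ D ∧ a ∈ E then ∏ l ∈ D ∪ E, f l else 0) ≤
      f a * ∏ l ∈ Q, (1 + 3 * f l) := by
  have hQ : Q = insert a (Q.erase a) := (insert_erase ha).symm
  have hna : a ∉ Q.erase a := notMem_erase a Q
  have e1 : ∑ D ∈ Q.powerset, ∑ E ∈ Q.powerset,
      (if a ∈ D ∧ a ∈ E then ∏ l ∈ D ∪ E, f l else 0) =
      f a * ∏ l ∈ Q.erase a, (1 + 3 * f l) := by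
    conv_lhs => rw [hQ]
    rw [sum_powerset_insert hna]
    have h1 : ∑ D ∈ (Q.erase a).powerset, ∑ E ∈ (insert a (Q.erase a)).powerset,
        (if a ∈ D ∧ a ∈ E then ∏ l ∈ D ∪ E, f l else 0) = 0 := by
      refine sum_eq_zero fun D hD => sum_eq_zero fun E _ => ?_
      rw [if_neg (fun h => hna (mem_powerset.1 hD h.1))]
    rw [h1, zero_add, ← LRG_pair, mul_sum]
    refine sum_congr rfl fun D hD => ?_
    rw [sum_powerset_insert hna]
    have h2 : ∑ E ∈ (Q.erase a).powerset,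
        (if a ∈ insert a D ∧ a ∈ E then ∏ l ∈ insert a D ∪ E, f l else 0) = 0 := by
      refine sum_eq_zero fun E hE => ?_
      rw [if_neg (fun h => hna (mem_powerset.1 hE h.2))]
    rw [h2, zero_add, mul_sum]
    refine sum_congr rfl fun E hE => ?_
    have hn : a ∉ D ∪ E := by
      rw [mem_union]
      rintro (h | h)
      · exact hna (mem_powerset.1 hD h)
      · exact hna (mem_powerset.1 hE h)
    rw [if_pos ⟨mem_insert_self a D, mem_insert_self a E⟩, insert_union, union_insert, insert_idem,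
      prod_insert hn]
  rw [e1]
  exact mul_le_mul_of_nonneg_left (LRG_erase_le Q (fun l => 3 * f l)
    (fun l hl => by have := hf l hl; positivity) a) (hf a ha)

/-- one pair of sets -/
lemma LRG_term (Q N : Finset ℕ) (hQ : ∀ l ∈ Q, 2 ≤ l) (ξ : Finset ℕ → ℝ) (hξ : ∀ K, |ξ K| ≤ 2)
    (D E : Finset ℕ) (hD : D ⊆ Q) (hE : E ⊆ Q) :
    |ξ D * ξ E * rho N D E - ξ D / pr D * (ξ E / pr E)| ≤
      4 * ∑ a ∈ N, (if a ∈ D ∧ a ∈ E then ∏ l ∈ D ∪ E, 1 / (l : ℝ) else 0) +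
      4 * ∑ a ∈ Q, (if a ∈ D then ∏ l ∈ D, 1 / (l : ℝ) else 0) *
        (if a ∈ E then ∏ l ∈ E, 1 / (l : ℝ) else 0) := by
  have hnn : ∀ K : Finset ℕ, 0 ≤ ∏ l ∈ K, 1 / (l : ℝ) := fun K => prod_nonneg fun l _ => by positivity
  have hn1 : ∀ a ∈ N, 0 ≤ (if a ∈ D ∧ a ∈ E then ∏ l ∈ D ∪ E, 1 / (l : ℝ) else 0) := by
    intro a _
    split_ifs
    · exact hnn _
    · exact le_rfl
  have hn2 : ∀ a ∈ Q, 0 ≤ (if a ∈ D then ∏ l ∈ D, 1 / (l : ℝ) else 0) *
        (if a ∈ E then ∏ l ∈ E, 1 / (l : ℝ) else 0) := by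
    intro a _
    apply mul_nonneg
    · split_ifs
      · exact hnn _
      · exact le_rfl
    · split_ifs
      · exact hnn _
      · exact le_rfl
  have hs1 := sum_nonneg hn1
  have hs2 := sum_nonneg hn2
  have e1 : ξ D * ξ E * rho N D E - ξ D / pr D * (ξ E / pr E) =
      ξ D * ξ E * (rho N D E - (1 / pr D) * (1 / pr E)) := by ring
  rw [e1, abs_mul, abs_mul]
  have h4 : |ξ D| * |ξ E| ≤ 4 := by
    calc |ξ D| * |ξ E| ≤ 2 * 2 := mul_le_mul (hξ D) (hξ E) (abs_nonneg _) (by norm_num)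
      _ = 4 := by norm_num
  by_cases hdis : Disjoint D E
  · have h5 : rho N D E = (1 / pr D) * (1 / pr E) := by
      unfold rho
      rw [if_pos (by rw [disjoint_iff_inter_eq_empty.1 hdis]; exact empty_subset _), LRG_g, LRG_g,
        LRG_g, prod_union hdis]
    rw [h5, sub_self, abs_zero, mul_zero]
    positivity
  · rw [not_disjoint_iff] at hdis
    obtain ⟨a, haD, haE⟩ := hdis
    have hr0 : 0 ≤ rho N D E := by
      unfold rho
      split_ifs
      · rw [LRG_g]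
        exact hnn _
      · exact le_rfl
    have h6 : rho N D E ≤ ∑ a ∈ N, (if a ∈ D ∧ a ∈ E then ∏ l ∈ D ∪ E, 1 / (l : ℝ) else 0) := by
      by_cases hN : D ∩ E ⊆ N
      · unfold rho
        rw [if_pos hN, LRG_g]
        have haN : a ∈ N := hN (mem_inter.2 ⟨haD, haE⟩)
        have := single_le_sum (f := fun a => (if a ∈ D ∧ a ∈ E then ∏ l ∈ D ∪ E, 1 / (l : ℝ) else 0))
          hn1 haN
        simp only [haD, haE, and_self, if_true] at this
        exact this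
      · have : rho N D E = 0 := by
          unfold rho
          rw [if_neg hN]
        rw [this]
        exact hs1
    have h7 : (1 / pr D) * (1 / pr E) ≤ ∑ a ∈ Q, (if a ∈ D then ∏ l ∈ D, 1 / (l : ℝ) else 0) *
        (if a ∈ E then ∏ l ∈ E, 1 / (l : ℝ) else 0) := by
      have := single_le_sum (f := fun a => (if a ∈ D then ∏ l ∈ D, 1 / (l : ℝ) else 0) *
        (if a ∈ E then ∏ l ∈ E, 1 / (l : ℝ) else 0)) hn2 (hD haD)
      simp only [haD, haE, if_true] at this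
      rw [LRG_g, LRG_g]
      exact this
    have h8 : 0 ≤ (1 / pr D) * (1 / pr E) := by
      rw [LRG_g, LRG_g]
      exact mul_nonneg (hnn _) (hnn _)
    have h9 : |rho N D E - (1 / pr D) * (1 / pr E)| ≤ rho N D E + (1 / pr D) * (1 / pr E) := by
      rw [abs_le]
      constructor <;> linarith
    calc |ξ D| * |ξ E| * |rho N D E - (1 / pr D) * (1 / pr E)|
        ≤ 4 * (rho N D E + (1 / pr D) * (1 / pr E)) :=
          mul_le_mul h4 h9 (abs_nonneg _) (by norm_num)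
      _ ≤ _ := by linarith

/-- the sum over the pairs -/
lemma LRG_sum (Q N : Finset ℕ) (hQ : ∀ l ∈ Q, 2 ≤ l) (hN : N ⊆ Q) (ξ : Finset ℕ → ℝ)
    (hξ : ∀ K, |ξ K| ≤ 2) (p q : ℕ) :
    |∑ D ∈ (Q.erase p).powerset, ∑ E ∈ (Q.erase q).powerset, ξ D * ξ E * rho N D E -
      Vx (Q.erase p) ξ * Vx (Q.erase q) ξ| ≤
      4 * ∑ a ∈ N, (1 / (a : ℝ)) * ∏ l ∈ Q, (1 + 3 * (1 / (l : ℝ))) +
      4 * ∑ a ∈ Q, ((1 / (a : ℝ)) * ∏ l ∈ Q, (1 + 1 / (l : ℝ))) ^ 2 := by
  have hnn : ∀ K : Finset ℕ, 0 ≤ ∏ l ∈ K, 1 / (l : ℝ) := fun K => prod_nonneg fun l _ => by positivity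
  have hf : ∀ l ∈ Q, 0 ≤ 1 / (l : ℝ) := fun l _ => by positivity
  have e1 : ∑ D ∈ (Q.erase p).powerset, ∑ E ∈ (Q.erase q).powerset, ξ D * ξ E * rho N D E -
      Vx (Q.erase p) ξ * Vx (Q.erase q) ξ =
      ∑ D ∈ (Q.erase p).powerset, ∑ E ∈ (Q.erase q).powerset,
        (ξ D * ξ E * rho N D E - ξ D / pr D * (ξ E / pr E)) := by
    unfold Vx
    rw [sum_mul_sum, ← sum_sub_distrib]
    refine sum_congr rfl fun D _ => ?_
    rw [← sum_sub_distrib]
  rw [e1]
  set F : Finset ℕ → Finset ℕ → ℝ := fun D E =>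
    4 * ∑ a ∈ N, (if a ∈ D ∧ a ∈ E then ∏ l ∈ D ∪ E, 1 / (l : ℝ) else 0) +
      4 * ∑ a ∈ Q, (if a ∈ D then ∏ l ∈ D, 1 / (l : ℝ) else 0) *
        (if a ∈ E then ∏ l ∈ E, 1 / (l : ℝ) else 0) with hF
  have hF0 : ∀ D E, 0 ≤ F D E := by
    intro D E
    rw [hF]
    have h1 : 0 ≤ ∑ a ∈ N, (if a ∈ D ∧ a ∈ E then ∏ l ∈ D ∪ E, 1 / (l : ℝ) else 0) := by
      refine sum_nonneg fun a _ => ?_
      split_ifs
      · exact hnn _
      · exact le_rfl
    have h2 : 0 ≤ ∑ a ∈ Q, (if a ∈ D then ∏ l ∈ D, 1 / (l : ℝ) else 0) *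
        (if a ∈ E then ∏ l ∈ E, 1 / (l : ℝ) else 0) := by
      refine sum_nonneg fun a _ => mul_nonneg ?_ ?_
      · split_ifs
        · exact hnn _
        · exact le_rfl
      · split_ifs
        · exact hnn _
        · exact le_rfl
    simp only
    linarith
  calc |∑ D ∈ (Q.erase p).powerset, ∑ E ∈ (Q.erase q).powerset,
        (ξ D * ξ E * rho N D E - ξ D / pr D * (ξ E / pr E))|
      ≤ ∑ D ∈ (Q.erase p).powerset, ∑ E ∈ (Q.erase q).powerset, F D E := by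
        refine (abs_sum_le_sum_abs _ _).trans (sum_le_sum fun D hD => ?_)
        refine (abs_sum_le_sum_abs _ _).trans (sum_le_sum fun E hE => ?_)
        exact LRG_term Q N hQ ξ hξ D E ((mem_powerset.1 hD).trans (erase_subset _ _))
          ((mem_powerset.1 hE).trans (erase_subset _ _))
    _ ≤ ∑ D ∈ Q.powerset, ∑ E ∈ Q.powerset, F D E := by
        calc ∑ D ∈ (Q.erase p).powerset, ∑ E ∈ (Q.erase q).powerset, F D E
            ≤ ∑ D ∈ (Q.erase p).powerset, ∑ E ∈ Q.powerset, F D E := by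
              refine sum_le_sum fun D _ => ?_
              exact sum_le_sum_of_subset_of_nonneg (powerset_mono.2 (erase_subset _ _))
                fun E _ _ => hF0 D E
          _ ≤ _ := sum_le_sum_of_subset_of_nonneg (powerset_mono.2 (erase_subset _ _))
                fun D _ _ => sum_nonneg fun E _ => hF0 D E
    _ = 4 * ∑ a ∈ N, ∑ D ∈ Q.powerset, ∑ E ∈ Q.powerset,
          (if a ∈ D ∧ a ∈ E then ∏ l ∈ D ∪ E, 1 / (l : ℝ) else 0) +
        4 * ∑ a ∈ Q, (∑ D ∈ Q.powerset, (if a ∈ D then ∏ l ∈ D, 1 / (l : ℝ) else 0)) *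
          (∑ E ∈ Q.powerset, (if a ∈ E then ∏ l ∈ E, 1 / (l : ℝ) else 0)) := by
        rw [hF]
        simp only
        have h1 : ∀ D ∈ Q.powerset, ∑ E ∈ Q.powerset,
            (4 * ∑ a ∈ N, (if a ∈ D ∧ a ∈ E then ∏ l ∈ D ∪ E, 1 / (l : ℝ) else 0) +
              4 * ∑ a ∈ Q, (if a ∈ D then ∏ l ∈ D, 1 / (l : ℝ) else 0) *
              (if a ∈ E then ∏ l ∈ E, 1 / (l : ℝ) else 0)) =
            4 * ∑ a ∈ N, ∑ E ∈ Q.powerset,
              (if a ∈ D ∧ a ∈ E then ∏ l ∈ D ∪ E, 1 / (l : ℝ) else 0) +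
            4 * ∑ a ∈ Q, ∑ E ∈ Q.powerset, (if a ∈ D then ∏ l ∈ D, 1 / (l : ℝ) else 0) *
              (if a ∈ E then ∏ l ∈ E, 1 / (l : ℝ) else 0) := by
          intro D _
          rw [sum_add_distrib, ← mul_sum, ← mul_sum, sum_comm (s := Q.powerset) (t := N),
            sum_comm (s := Q.powerset) (t := Q)]
        rw [sum_congr rfl h1, sum_add_distrib, ← mul_sum, ← mul_sum,
          sum_comm (s := Q.powerset) (t := N), sum_comm (s := Q.powerset) (t := Q)]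
        congr 1
        congr 1
        refine sum_congr rfl fun a _ => ?_
        rw [sum_mul_sum]
    _ ≤ _ := by
        apply add_le_add
        · apply mul_le_mul_of_nonneg_left _ (by norm_num)
          refine sum_le_sum fun a ha => ?_
          exact LRG_pair_mem Q (fun l => 1 / (l : ℝ)) hf a (hN ha)
        · apply mul_le_mul_of_nonneg_left _ (by norm_num)
          refine sum_le_sum fun a ha => ?_
          rw [sq]
          have h1 := LRG_mem Q (fun l => 1 / (l : ℝ)) hf a ha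
          have h0 : 0 ≤ ∑ D ∈ Q.powerset, (if a ∈ D then ∏ l ∈ D, 1 / (l : ℝ) else 0) := by
            refine sum_nonneg fun D _ => ?_
            split_ifs
            · exact hnn _
            · exact le_rfl
          exact mul_le_mul h1 h1 h0 (h0.trans h1)

/-- removing one prime -/
lemma LRG_diff (Q : Finset ℕ) (ξ : Finset ℕ → ℝ) (hξ : ∀ K, |ξ K| ≤ 2) (p : ℕ) (y : ℝ) (hy : 0 < y)
    (hp : p ∈ Q → y < p) :
    |Vx (Q.erase p) ξ - Vx Q ξ| ≤ 2 / y * ∏ l ∈ Q, (1 + 1 / (l : ℝ)) := by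
  have hf : ∀ l ∈ Q, 0 ≤ 1 / (l : ℝ) := fun l _ => by positivity
  have hT := LRG_prod_one_le Q (fun l => 1 / (l : ℝ)) hf
  by_cases hpQ : p ∈ Q
  · have hna : p ∉ Q.erase p := notMem_erase p Q
    have hQ : Q = insert p (Q.erase p) := (insert_erase hpQ).symm
    have hyp := hp hpQ
    have hp0 : (0 : ℝ) < p := by linarith
    have e1 : Vx Q ξ = Vx (Q.erase p) ξ +
        ∑ K ∈ (Q.erase p).powerset, ξ (insert p K) / pr (insert p K) := by
      unfold Vx
      conv_lhs => rw [hQ]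
      rw [sum_powerset_insert hna]
    rw [e1]
    have e2 : Vx (Q.erase p) ξ - (Vx (Q.erase p) ξ +
        ∑ K ∈ (Q.erase p).powerset, ξ (insert p K) / pr (insert p K)) =
        -∑ K ∈ (Q.erase p).powerset, ξ (insert p K) / pr (insert p K) := by ring
    rw [e2, abs_neg]
    calc |∑ K ∈ (Q.erase p).powerset, ξ (insert p K) / pr (insert p K)|
        ≤ ∑ K ∈ (Q.erase p).powerset, |ξ (insert p K) / pr (insert p K)| := abs_sum_le_sum_abs _ _
      _ ≤ ∑ K ∈ (Q.erase p).powerset, 2 / p * ∏ l ∈ K, 1 / (l : ℝ) := by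
          refine sum_le_sum fun K hK => ?_
          have h1 : ξ (insert p K) / pr (insert p K) =
              ξ (insert p K) * ((1 / p) * ∏ l ∈ K, 1 / (l : ℝ)) := by
            rw [← prod_insert (f := fun l : ℕ => 1 / (l : ℝ)) (fun h => hna (mem_powerset.1 hK h)),
              ← LRG_g]
            ring
          have h2 : 0 ≤ ∏ l ∈ K, 1 / (l : ℝ) := prod_nonneg fun l _ => by positivity
          have h3 : (0 : ℝ) ≤ (1 / p) * ∏ l ∈ K, 1 / (l : ℝ) := mul_nonneg (by positivity) h2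
          rw [h1, abs_mul, abs_of_nonneg h3]
          calc |ξ (insert p K)| * ((1 / p) * ∏ l ∈ K, 1 / (l : ℝ))
              ≤ 2 * ((1 / p) * ∏ l ∈ K, 1 / (l : ℝ)) := mul_le_mul_of_nonneg_right (hξ _) h3
            _ = _ := by ring
      _ = 2 / p * ∏ l ∈ Q.erase p, (1 + 1 / (l : ℝ)) := by
          rw [← mul_sum, LRG_one (Q.erase p) (fun l => 1 / (l : ℝ))]
      _ ≤ 2 / y * ∏ l ∈ Q, (1 + 1 / (l : ℝ)) := by
          apply mul_le_mul
          · exact div_le_div_of_nonneg_left (by norm_num) hy hyp.le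
          · exact LRG_erase_le Q (fun l => 1 / (l : ℝ)) hf p
          · exact zero_le_one.trans (LRG_prod_one_le (Q.erase p) (fun l => 1 / (l : ℝ))
              (fun l _ => by positivity))
          · positivity
  · rw [erase_eq_of_notMem hpQ, sub_self, abs_zero]
    have : (0 : ℝ) ≤ ∏ l ∈ Q, (1 + 1 / (l : ℝ)) := by linarith
    positivity

/-- the product over the large primes is bounded -/
lemma LRG_T (η : ℝ) (hη : 0 < η) (hη1 : η ≤ 1 / 10) : ∃ B X₀ : ℝ, 0 < B ∧ ∀ X : ℝ, X₀ ≤ X →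
    ∏ l ∈ Ql X η, (1 + 3 * (1 / (l : ℝ))) ≤ B := by
  obtain ⟨C, hC, h⟩ := mert_inv
  have e1 : ∀ᶠ X : ℝ in Filter.atTop, 2 ≤ X ^ η :=
    (tendsto_rpow_atTop hη).eventually_ge_atTop 2
  have e2 : ∀ᶠ X : ℝ in Filter.atTop, 1 ≤ Real.log X :=
    Real.tendsto_log_atTop.eventually_ge_atTop 1
  obtain ⟨X₀, hX₀⟩ := (e1.and (e2.and (Filter.eventually_ge_atTop (1 : ℝ)))).exists_forall_of_atTop
  refine ⟨Real.exp (3 * (Real.log (0.47 / η) + C / η)), X₀, Real.exp_pos _, ?_⟩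
  intro X hX
  obtain ⟨h1, h2, h3⟩ := hX₀ X hX
  have h4 := h (X ^ (0.47 : ℝ)) (X ^ η) h1
    (Real.rpow_le_rpow_of_exponent_le h3 (by norm_num at hη1 ⊢; linarith))
  have hX0 : 0 < X := by linarith
  rw [Real.log_rpow hX0, Real.log_rpow hX0] at h4
  have h5 : 0.47 * Real.log X / (η * Real.log X) = 0.47 / η := by
    field_simp
  rw [h5] at h4
  have h6 : C / (η * Real.log X) ≤ C / η := by
    apply div_le_div_of_nonneg_left hC.le hη
    nlinarith
  calc ∏ l ∈ Ql X η, (1 + 3 * (1 / (l : ℝ))) ≤ ∏ l ∈ Ql X η, Real.exp (3 * (1 / (l : ℝ))) := by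
        refine prod_le_prod (fun l _ => by positivity) fun l _ => ?_
        have := Real.add_one_le_exp (3 * (1 / (l : ℝ)))
        linarith
    _ = Real.exp (3 * ∑ l ∈ Ql X η, 1 / (l : ℝ)) := by
        rw [← Real.exp_sum, mul_sum]
    _ ≤ _ := by
        apply Real.exp_le_exp.2
        apply mul_le_mul_of_nonneg_left _ (by norm_num)
        have h7 : ∑ l ∈ Ql X η, 1 / (l : ℝ) =
            ∑ l ∈ (Ioc ⌊X ^ η⌋₊ ⌊X ^ (0.47 : ℝ)⌋₊).filter Nat.Prime, 1 / (l : ℝ) := rfl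
        rw [h7]
        linarith

lemma LRG_gt (X η : ℝ) (l : ℕ) (hl : l ∈ Ql X η) : l.Prime ∧ X ^ η < l ∧ ⌊X ^ η⌋₊ < l := by
  unfold Ql Qs at hl
  rw [mem_filter, mem_Ioc] at hl
  refine ⟨hl.2, ?_, hl.1.1⟩
  exact Nat.lt_of_floor_lt hl.1.1

/-- the number of the primes dividing `p² - q²` -/
lemma LRG_Nn (η X : ℝ) (hη : 0 < η) (hX : 1 < X) (p q : ℕ) (hpq : p ≠ q) (hp : (p : ℝ) ≤ X)
    (hq : (q : ℝ) ≤ X) : ((Nn (Ql X η) p q).card : ℝ) ≤ 2 / η := by
  have hX0 : 0 < X := by linarith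
  set N := Nn (Ql X η) p q with hN
  set n : ℕ := ((p : ℤ) ^ 2 - (q : ℤ) ^ 2).natAbs with hn
  have hmem : ∀ l ∈ N, l ∈ Ql X η ∧ (l : ℤ) ∣ (p : ℤ) ^ 2 - (q : ℤ) ^ 2 := by
    intro l hl
    rw [hN] at hl
    unfold Nn at hl
    rwa [mem_filter] at hl
  have hn0 : n ≠ 0 := by
    rw [hn, Int.natAbs_ne_zero, sub_ne_zero]
    intro h
    have h2 : p ^ 2 = q ^ 2 := by exact_mod_cast h
    exact hpq (Nat.pow_left_injective (by norm_num) h2)
  have h1 : ∏ l ∈ N, l ∣ n := by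
    apply prod_primes_dvd
    · intro l hl
      exact (LRG_gt X η l (hmem l hl).1).1.prime
    · intro l hl
      rw [hn]
      exact Int.natCast_dvd.1 (hmem l hl).2
  have h2 : ((∏ l ∈ N, l : ℕ) : ℝ) ≤ (n : ℝ) := by
    exact_mod_cast Nat.le_of_dvd (Nat.pos_of_ne_zero hn0) h1
  have h3 : (n : ℝ) ≤ X ^ 2 := by
    have e1 : (n : ℝ) = |(p : ℝ) ^ 2 - (q : ℝ) ^ 2| := by
      rw [hn, Nat.cast_natAbs]
      push_cast
      rfl
    rw [e1, abs_le]
    have g1 : (p : ℝ) ^ 2 ≤ X ^ 2 := pow_le_pow_left₀ (Nat.cast_nonneg p) hp 2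
    have g2 : (q : ℝ) ^ 2 ≤ X ^ 2 := pow_le_pow_left₀ (Nat.cast_nonneg q) hq 2
    have g3 : (0 : ℝ) ≤ (p : ℝ) ^ 2 := by positivity
    have g4 : (0 : ℝ) ≤ (q : ℝ) ^ 2 := by positivity
    constructor <;> linarith
  have h4 : (X ^ η) ^ N.card ≤ ((∏ l ∈ N, l : ℕ) : ℝ) := by
    push_cast
    rw [← prod_const]
    exact prod_le_prod (fun _ _ => by positivity) fun l hl => (LRG_gt X η l (hmem l hl).1).2.1.le
  have h5 : X ^ (η * N.card) ≤ X ^ (2 : ℝ) := by
    rw [Real.rpow_mul hX0.le, Real.rpow_natCast, Real.rpow_two]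
    exact h4.trans (h2.trans h3)
  have h6 := (Real.rpow_le_rpow_left_iff hX).1 h5
  rw [le_div_iff₀ hη]
  linarith

theorem LRG : LRG_stmt := by
  intro η hη hη1
  obtain ⟨B, X₁, hB, hT⟩ := LRG_T η hη hη1
  have e1 : ∀ᶠ X : ℝ in Filter.atTop, 8 * B * (1 / η + 1) ≤ X ^ (η / 2) :=
    (tendsto_rpow_atTop (by positivity)).eventually_ge_atTop _
  have e2 : ∀ᶠ X : ℝ in Filter.atTop, 2 ≤ X ^ η :=
    (tendsto_rpow_atTop hη).eventually_ge_atTop 2
  obtain ⟨X₀, hX₀⟩ := (e1.and (e2.and ((Filter.eventually_ge_atTop (2 : ℝ)).and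
    (Filter.eventually_ge_atTop X₁)))).exists_forall_of_atTop
  refine ⟨X₀, ?_⟩
  intro X hX ξ hξ p q hp hq hpq hpX hqX
  obtain ⟨h1, h2, h3, h4⟩ := hX₀ X hX
  have hX0 : 0 < X := by linarith
  set Q := Ql X η with hQdef
  have hQ : ∀ l ∈ Q, 2 ≤ l := fun l hl => (LRG_gt X η l hl).1.two_le
  have hf : ∀ l ∈ Q, 0 ≤ 1 / (l : ℝ) := fun l _ => by positivity
  set T := ∏ l ∈ Q, (1 + 3 * (1 / (l : ℝ))) with hTdef
  set T₁ := ∏ l ∈ Q, (1 + 1 / (l : ℝ)) with hT₁def
  have hTB : T ≤ B := hT X h4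
  have hT₁1 : 1 ≤ T₁ := LRG_prod_one_le Q _ hf
  have hT₁T : T₁ ^ 2 ≤ T := by
    rw [hT₁def, hTdef, ← prod_pow]
    refine prod_le_prod (fun l _ => by positivity) fun l hl => ?_
    have g1 : (2 : ℝ) ≤ l := by exact_mod_cast hQ l hl
    have g2 : 1 / (l : ℝ) ≤ 1 := by
      rw [div_le_one (by linarith)]
      linarith
    have g3 : 0 ≤ 1 / (l : ℝ) := by positivity
    nlinarith
  have hT₁B : T₁ ≤ B := by nlinarith
  have hy : 0 < X ^ η := by positivity
  set s := X ^ (-(η / 2)) with hs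
  have hs0 : 0 < s := by positivity
  have hss : 1 / X ^ η = s * s := by
    rw [hs, ← Real.rpow_add hX0, one_div, ← Real.rpow_neg hX0.le]
    congr 1
    ring
  have hs1 : X ^ (η / 2) * s = 1 := by
    rw [hs, ← Real.rpow_add hX0]
    have : η / 2 + -(η / 2) = 0 := by ring
    rw [this, Real.rpow_zero]
  have hkey : 8 * B * (1 / η + 1) * (1 / X ^ η) ≤ s := by
    rw [hss]
    calc 8 * B * (1 / η + 1) * (s * s) ≤ X ^ (η / 2) * (s * s) :=
          mul_le_mul_of_nonneg_right h1 (by positivity)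
      _ = (X ^ (η / 2) * s) * s := by ring
      _ = s := by rw [hs1, one_mul]
  have hη0 : 0 < 1 / η := by positivity
  have hy0 : 0 < 1 / X ^ η := by positivity
  refine ⟨?_, ?_, ?_⟩
  · refine (LRG_diff Q ξ hξ.bd p (X ^ η) hy (fun h => (LRG_gt X η p h).2.1)).trans ?_
    refine le_trans ?_ hkey
    calc 2 / X ^ η * T₁ = 2 * T₁ * (1 / X ^ η) := by ring
      _ ≤ 8 * B * (1 / η + 1) * (1 / X ^ η) := by
        apply mul_le_mul_of_nonneg_right _ hy0.le
        nlinarith [mul_pos hB hη0]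
  · have g1 : Vx (Q.erase p) ξ = Ex (Q.erase p) (fun A => if (∅ : Finset ℕ) ⊆ A then U ξ A else 0) := by
      rw [Rep_Ex (Q.erase p) (fun l hl => hQ l (mem_of_mem_erase hl)) (U ξ) ξ (fun A _ => rfl) ∅
        (empty_subset _)]
      unfold Vx
      refine sum_congr rfl fun K _ => ?_
      rw [union_empty]
    rw [g1]
    apply Ex_nonneg (Q.erase p) (fun l hl => hQ l (mem_of_mem_erase hl))
    intro A hA
    rw [if_pos (empty_subset _)]
    exact hξ.nn A (hA.trans (erase_subset _ _))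
  · have hNQ : Nn Q p q ⊆ Q := filter_subset _ _
    refine (LRG_sum Q (Nn Q p q) hQ hNQ ξ hξ.bd p q).trans ?_
    refine le_trans ?_ hkey
    have hc := LRG_Nn η X hη (by linarith) p q hpq hpX hqX
    have g1 : ∑ a ∈ Nn Q p q, (1 / (a : ℝ)) * T ≤ (2 / η) * (1 / X ^ η) * B := by
      calc ∑ a ∈ Nn Q p q, (1 / (a : ℝ)) * T ≤ ∑ a ∈ Nn Q p q, (1 / X ^ η) * B := by
            refine sum_le_sum fun a ha => ?_
            have g2 := (LRG_gt X η a (hNQ ha)).2.1
            apply mul_le_mul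
            · exact div_le_div_of_nonneg_left (by norm_num) hy g2.le
            · exact hTB
            · exact (sq_nonneg _).trans hT₁T
            · exact hy0.le
        _ = ((Nn Q p q).card : ℝ) * ((1 / X ^ η) * B) := by
            rw [sum_const, nsmul_eq_mul]
        _ ≤ (2 / η) * ((1 / X ^ η) * B) := by
            apply mul_le_mul_of_nonneg_right hc (by positivity)
        _ = _ := by ring
    have g3 : ∑ a ∈ Q, ((1 / (a : ℝ)) * T₁) ^ 2 ≤ 2 * (1 / X ^ η) * B := by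
      have k1 : 1 ≤ ⌊X ^ η⌋₊ := Nat.le_floor (by push_cast; linarith)
      have k2 : ∑ a ∈ Q, (1 / (a : ℝ)) ^ 2 ≤ 2 * (1 / X ^ η) := by
        calc ∑ a ∈ Q, (1 / (a : ℝ)) ^ 2
            ≤ ∑ a ∈ Q, 1 / ((a : ℝ) * (a - 1)) := by
              refine sum_le_sum fun a ha => ?_
              have k3 : (2 : ℝ) ≤ a := by exact_mod_cast hQ a ha
              rw [div_pow, one_pow]
              apply div_le_div_of_nonneg_left (by norm_num) (by nlinarith)
              nlinarith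
          _ ≤ ∑ a ∈ Ioc ⌊X ^ η⌋₊ ⌊X ^ (0.47 : ℝ)⌋₊, 1 / ((a : ℝ) * (a - 1)) := by
              apply sum_le_sum_of_subset_of_nonneg (filter_subset _ _)
              intro a ha _
              rw [mem_Ioc] at ha
              have k3 : (1 : ℝ) < a := by
                have : 1 < a := lt_of_le_of_lt k1 ha.1
                exact_mod_cast this
              have k4 : (0 : ℝ) < a - 1 := by linarith
              positivity
          _ ≤ 1 / (⌊X ^ η⌋₊ : ℝ) := N2_tele _ _ k1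
          _ ≤ 2 * (1 / X ^ η) := by
              have k5 : X ^ η < (⌊X ^ η⌋₊ : ℝ) + 1 := Nat.lt_floor_add_one _
              have k6 : (1 : ℝ) ≤ (⌊X ^ η⌋₊ : ℝ) := by exact_mod_cast k1
              rw [mul_one_div, div_le_div_iff₀ (by linarith) hy]
              linarith
      calc ∑ a ∈ Q, ((1 / (a : ℝ)) * T₁) ^ 2 = (∑ a ∈ Q, (1 / (a : ℝ)) ^ 2) * T₁ ^ 2 := by
            rw [sum_mul]
            refine sum_congr rfl fun a _ => ?_
            rw [mul_pow]
        _ ≤ 2 * (1 / X ^ η) * B := mul_le_mul k2 (hT₁T.trans hTB) (sq_nonneg _) (by positivity)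
    have e3 : 8 * B * (1 / η + 1) * (1 / X ^ η) =
        4 * ((2 / η) * (1 / X ^ η) * B) + 4 * (2 * (1 / X ^ η) * B) := by ring
    rw [e3]
    linarith

end Pool.Agent.PT
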